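import Mathlib
import Pool.Agent.H89.RFP.Main

set_option autoImplicit false

namespace Pool.Agent.Results.MP_123484_an.NoStateIso

open Pool.Agent.H89.RFP

/-- A negative answer to Q2, for every separable unital C*-algebra `C` and every state `σ` of it:
there is a faithful state `ω` of the Cuntz algebra `O` on infinitely many generators such that no
*-isomorphism of the reduced free product of `(O, ω)` and the infinite reduced free power of
`(C, σ)` onto that free power carries the one free product state to the other. -/
theorem result : ∃ (O : Type) (_ : CStarAlgebra O),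
    IsCuntzInfinity O ∧ IsPurelyInfiniteSimple O ∧ TopologicalSpace.SeparableSpace O ∧
    ∀ (C : Type) [CStarAlgebra C] [TopologicalSpace.SeparableSpace C] (σ : C →L[ℂ] ℂ),
      IsState σ → ∃ ω : O →L[ℂ] ℂ, IsState ω ∧ (∀ a, ω (star a * a) = 0 → a = 0) ∧
        NoStatePreservingIso ω σ :=
  ⟨CuntzFock, inferInstance, isCuntzInfinity_cuntzFock, isPurelyInfiniteSimple_cuntzFock,
    separableSpace_of_cuntz isCuntzInfinity_cuntzFock, fun C _ _ σ hσ => main_faithful C σ hσ⟩

end Pool.Agent.Results.MP_123484_an.NoStateIso
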